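import Pool.Agent.Lib.MP_b5021c_nt.KO.H02.TkC
import Pool.Agent.Lib.MP_b5021c_nt.KO.H95.Hh
import Pool.Agent.Lib.MP_b5021c_nt.KO.H13.TkF

/-!
# MP_b5021c_nt, all `θ`, K ODD, leaf O4, `l = 3`, row TK_DT: the torus inequality (helper2)

`W` = the closing of the killer `T` at its load B, `PS` the free part of `W`, `G = g0 W`:
`‖PS‖ ≤ 2 ‖G‖` on the torus, with equality only if `PS = - 2 G`.
-/

set_option linter.unusedSectionVars false

namespace Pool.Agent.B5.KO2

open scoped LaurentPolynomial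
open AddMonoidAlgebra
open Pool.Agent.B5.KO.H71 (Tri Fr)
open Pool.Agent.B5.KO52
open Pool.Agent.B5.KO.H40 (flt flt_in flt_out mon_mul_coeff)
open Pool.Agent.B5.H83

section

variable {O : Type} [CommRing O] [IsDomain O] [IsPrincipalIdealRing O] [Coef O] {P : Type}
  [Fintype P] [DecidableEq P] {L : Type} [AddCommGroup L] [Module.Free ℤ L] [Module.Finite ℤ L]

variable {phi : L →+ (P → ℤ)} {D : AO O L} {r : ZMod 3 → L} {e : ZMod 3 → (RO O)ˣ}
  {mu : ZMod 3 → L →+ ℤ} {T : L} {iT : P} {p : P} {tau u0 : (RO O)ˣ} {lam : L →+ ℤ}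

theorem A0_pos (hs : Sfn D r T lam) (h : Tri phi D r e mu) (hF1 : F1S)
    (hI : Function.Injective phi) (hT : co phi iT T = 1) (hd : ∀ i, Dj phi (r i) T)
    (hmT : ∀ i, mu i T = 0) (hb : ∀ a ∈ supp D, Bin phi a) :
    Pos (lam.comp (incl (Ker (co phi iT)))) (A0el phi D r e mu p iT) := by
  intro x hx hx0
  have hx' := Finsupp.mem_support_iff.mp hx
  unfold A0el at hx'
  rw [res_coeff] at hx'
  have h1 : (x : L) ∈ supp (g0 phi D r e mu p) := hx'
  have h3 : co phi iT (x : L) = 0 := x.2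
  have h4 : (x : L) ≠ T := by
    intro h2
    rw [h2, hT] at h3
    exact one_ne_zero h3
  exact hs.g0 h hF1 hI hT hd hmT hb h1 (fun h2 => hx0 (Subtype.ext h2)) h4

theorem A1_pos (hs : Sfn D r T lam) (h : Tri phi D r e mu) (hF1 : F1S)
    (hI : Function.Injective phi) (hT : co phi iT T = 1) (hd : ∀ i, Dj phi (r i) T)
    (hmT : ∀ i, mu i T = 0) (hb : ∀ a ∈ supp D, Bin phi a) :
    Pos (lam.comp (incl (Ker (co phi iT)))) (A1el phi D r e mu p T iT tau) := by
  intro x hx hx0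
  have h1 : (x : L) + T ∈ supp (g0 phi D r e mu p) := by
    intro h2
    rw [Finsupp.mem_support_iff] at hx
    apply hx
    unfold A1el
    rw [P1_coeff, h2, mul_zero]
  have h3 : co phi iT (x : L) = 0 := x.2
  have h4 := hs.g0 h hF1 hI hT hd hmT hb h1 (by
    intro h2
    have h5 : co phi iT ((x : L) + T) = 0 := by rw [h2, map_zero]
    rw [map_add, h3, hT] at h5
    norm_num at h5) (by
    intro h2
    apply hx0
    apply Subtype.ext
    exact add_eq_right.mp h2)
  rw [map_add, hs.vT, add_zero] at h4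
  exact h4

/-- The closing of `g0`. -/
theorem g0_split (hT : co phi iT T = 1) (hd : ∀ i, Dj phi (r i) T)
    (hb : ∀ a ∈ supp D, Bin phi a) :
    cl (co phi iT) T hT u0 (g0 phi D r e mu p) = A0el phi D r e mu p iT +
      cst (-((u0 : RO O) * ((tau⁻¹ : (RO O)ˣ) : RO O))) * A1el phi D r e mu p T iT tau := by
  apply AddMonoidAlgebra.ext
  apply Finsupp.ext
  intro x
  rw [H36.ndz_clc (co phi iT) T hT u0 _ (g0_deg hT hd hb) x, coeff_add, Finsupp.add_apply,
    KO.H71.cst_co]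
  unfold A0el A1el
  rw [P1_coeff, res_coeff]
  have h1 : ((tau⁻¹ : (RO O)ˣ) : RO O) * (tau : RO O) = 1 := Units.inv_mul _
  linear_combination (-((u0 : RO O) * (g0 phi D r e mu p).coeff ((x : L) + T))) * h1

/-- The closing of the free part. -/
theorem psi_split (hT : co phi iT T = 1) (hd : ∀ i, Dj phi (r i) T)
    (hb : ∀ a ∈ supp D, Bin phi a) (hk : Kfl phi (psi phi D r e mu) T tau) :
    cl (co phi iT) T hT u0 (psi phi D r e mu) =
      cst (1 - (u0 : RO O) * ((tau⁻¹ : (RO O)ˣ) : RO O)) * Bel phi D r e mu T iT := by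
  have h1 : cl (co phi iT) T hT u0 (flt {u | Dj phi T u} (psi phi D r e mu)) =
      Bel phi D r e mu T iT := by
    have hdg : ∀ a ∈ supp (flt {u | Dj phi T u} (psi phi D r e mu)),
        co phi iT a = 0 ∨ co phi iT a = 1 := by
      intro a ha
      have h2 : (flt {u | Dj phi T u} (psi phi D r e mu)).coeff a ≠ 0 := ha
      by_cases c : Dj phi T a
      · exact Or.inl ((c iT).resolve_right (by
          rw [show phi T iT = 1 from hT]
          exact one_ne_zero))
      · rw [flt_out (Q := {v | Dj phi T v}) _ c] at h2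
        exact absurd rfl h2
    apply AddMonoidAlgebra.ext
    apply Finsupp.ext
    intro x
    rw [H36.ndz_clc (co phi iT) T hT u0 _ hdg x]
    have h3 : ¬ Dj phi T ((x : L) + T) := by
      intro c
      have h4 := (c iT).resolve_right (by
          rw [show phi T iT = 1 from hT]
          exact one_ne_zero)
      have h5 : phi (x : L) iT = 0 := x.2
      rw [map_add, Pi.add_apply, h5, show phi T iT = 1 from hT] at h4
      norm_num at h4
    rw [flt_out (Q := {v | Dj phi T v}) _ h3, mul_zero, add_zero]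
    rfl
  conv_lhs => rw [hk.eq]
  rw [map_mul, cl_fac, h1, mul_comm]

end

section

open Polynomial

variable {P : Type} [Fintype P] [DecidableEq P] {L : Type} [AddCommGroup L] [Module.Free ℤ L]
  [Module.Finite ℤ L] {phi : L →+ (P → ℤ)} {D : AO ℤ L} {q f : ℤ[X]} {a : ℝ} {j : ℕ}
  {eta : L → (RO ℤ)ˣ} {Z : ZMod 3 → L} {mu : ZMod 3 → L →+ ℤ} {T : L} {eT : (RO ℤ)ˣ}

theorem u_tau (eT : (RO ℤ)ˣ) :
    ((ld eT 1 : (RO ℤ)ˣ) : RO ℤ) * (((-eT)⁻¹ : (RO ℤ)ˣ) : RO ℤ) = -LaurentPolynomial.T 1 := by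
  rw [KE.ld_val, inv_neg, Units.val_neg]
  have h1 : (eT : RO ℤ) * ((eT⁻¹ : (RO ℤ)ˣ) : RO ℤ) = 1 := Units.mul_inv _
  linear_combination (-(LaurentPolynomial.T 1 : RO ℤ)) * h1

/-- The killing of the free part. -/
theorem kfl_T (hF1 : F1S) (hF2 : F2S) (hF3 : F3S) (hE2 : E2S)
    (h : O4X.Tf phi D q f a j eta 0 Z mu T eT) {iT : P} (hT : co phi iT T = 1) :
    Kfl phi (psi phi D Z (fun i => eta (Z i)) mu) T (-eT) := by
  have hD := h.dd
  obtain ⟨-, -, -, -, hrk, -⟩ := hE2 ℤ P L phi D hD h.two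
  refine psi_kfl (KO.H71.Cyc.tri hD hrk h.cyc) hF1 hD.inj hD.bin (hD.bin T h.rT.1) ⟨iT, hT⟩
    (fun i => h.dis hF2 i) ?_
  intro b hb i
  exact (KO.H40.cyc_killer hF3 hD h.cyc h.rT h.TZ (h.kil i) b hb).1

/-- (A) THE TORUS INEQUALITY. -/
theorem dtA (hM : MultiS) (hSS : StSpecS) (hFa : FaceS) (hEv : EvRS) (hZf : ZfinS)
    (hSl : SlEvalS) (hRS : RaySpanS) (hF1 : F1S) (hF2 : F2S) (hF3 : F3S) (hE2 : E2S)
    (h : O4X.Tf phi D q f a j eta 0 Z mu T eT) {iT : P} (hT : co phi iT T = 1) {p : P}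
    (hp : phi (Z 0) p = 1) (z : Circle) (u : AddChar (Ker (co phi iT)) Circle) :
    ‖ev z u (psi (phO phi T iT) (cl (co phi iT) T hT (ld eT 1) D)
        (fun i => (⟨Z i, h.zk hF2 hT i⟩ : Ker (co phi iT))) (fun i => eta (Z i))
        (fun i => (mu i).comp (incl (Ker (co phi iT)))))‖ ≤
      2 * ‖ev z u (g0 (phO phi T iT) (cl (co phi iT) T hT (ld eT 1) D)
        (fun i => (⟨Z i, h.zk hF2 hT i⟩ : Ker (co phi iT))) (fun i => eta (Z i))
        (fun i => (mu i).comp (incl (Ker (co phi iT)))) p)‖ ∧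
    (‖ev z u (psi (phO phi T iT) (cl (co phi iT) T hT (ld eT 1) D)
        (fun i => (⟨Z i, h.zk hF2 hT i⟩ : Ker (co phi iT))) (fun i => eta (Z i))
        (fun i => (mu i).comp (incl (Ker (co phi iT)))))‖ =
      2 * ‖ev z u (g0 (phO phi T iT) (cl (co phi iT) T hT (ld eT 1) D)
        (fun i => (⟨Z i, h.zk hF2 hT i⟩ : Ker (co phi iT))) (fun i => eta (Z i))
        (fun i => (mu i).comp (incl (Ker (co phi iT)))) p)‖ →
      ev z u (psi (phO phi T iT) (cl (co phi iT) T hT (ld eT 1) D)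
        (fun i => (⟨Z i, h.zk hF2 hT i⟩ : Ker (co phi iT))) (fun i => eta (Z i))
        (fun i => (mu i).comp (incl (Ker (co phi iT))))) =
      -(2 * ev z u (g0 (phO phi T iT) (cl (co phi iT) T hT (ld eT 1) D)
        (fun i => (⟨Z i, h.zk hF2 hT i⟩ : Ker (co phi iT))) (fun i => eta (Z i))
        (fun i => (mu i).comp (incl (Ker (co phi iT)))) p))) := by
  classical
  have hD := h.dd
  obtain ⟨hzD, hth, -, -, hrk, -⟩ := hE2 ℤ P L phi D hD h.two
  have tri := KO.H71.Cyc.tri hD hrk h.cyc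
  have hd : ∀ i, Dj phi (Z i) T := fun i => h.dis hF2 i
  have hmT : ∀ i, mu i T = 0 := fun i => h.muT i
  have hk := kfl_T hF1 hF2 hF3 hE2 h hT
  have hpos : ∃ lam : L →+ ℤ, Pos lam D := by
    obtain ⟨-, l0, hl0, -⟩ := hD.st
    exact ⟨l0, hl0⟩
  obtain ⟨lam, hs⟩ := sfn_ex hRS tri hth hpos (fun i => h.ray i) h.rT h.TZ
    (fun R hR hne i => h.cyc.oth i R hR (hne _) (hne _))
  have hr : (fun i => (⟨Z i, h.zk hF2 hT i⟩ : Ker (co phi iT))) =
      fun i => prj (co phi iT) T hT (Z i) := by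
    funext i
    apply Subtype.ext
    rw [prj0 hT (kr hT hd i)]
  rw [hr, psi_cl hT hd hmT hD.bin, g0_cl hT hd hmT hD.bin hp,
    g0_split (tau := -eT) hT hd hD.bin, psi_split hT hd hD.bin hk, u_tau]
  have hT0 : T ≠ 0 := h.rT.2.1
  have hTp : phi T p = 0 := (h.dis hF2 0 p).resolve_right (by rw [hp]; exact one_ne_zero)
  have imT : Im0 phi p mu T := ⟨hTp, hmT⟩
  have frT : Fr phi Z mu T := ⟨fun i q => h.dis hF2 i q, hmT⟩
  have a0 : (A0el phi D Z (fun i => eta (Z i)) mu p iT).coeff 0 = toLaurent (q + X * f) := by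
    unfold A0el
    rw [res_coeff]
    change (g0 phi D Z (fun i => eta (Z i)) mu p).coeff 0 = _
    rw [g0_zero, h.ko.D0, h.cf 0, map_add]
  have a1 : (A1el phi D Z (fun i => eta (Z i)) mu p T iT (-eT)).coeff 0 =
      toLaurent ((1 - X - X ^ 2) * f + X * f) := by
    unfold A1el
    rw [P1_coeff]
    change -((-eT : (RO ℤ)ˣ) : RO ℤ) * (g0 phi D Z (fun i => eta (Z i)) mu p).coeff ((0 : L) + T) = _
    rw [zero_add, g0_in imT, psi_in frT, Units.val_neg, neg_neg]
    have h1 := h.rn.DS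
    have h2 := h.kZ hF1 hF2 0
    have h3 := h.cf 0
    have h4 : (toLaurent ((1 - X - X ^ 2) * f + X * f) : RO ℤ) =
        toLaurent ((1 - X - X ^ 2) * f) + toLaurent (X * f) := map_add _ _ _
    rw [h4, ← h1, ← h3, ← h2, add_comm T (Z 0)]
    ring
  have hneg : ∀ F : AO ℤ (Ker (co phi iT)), ∀ c : RO ℤ, ev z u (cst c * F) =
      evR z c * ev z u F := by
    intro F c
    rw [map_mul]
    congr 1
    unfold cst
    rw [H59.ev_single, AddChar.map_zero_eq_one, Circle.coe_one, mul_one]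
  have hdiff : (A0el phi D Z (fun i => eta (Z i)) mu p iT -
      A1el phi D Z (fun i => eta (Z i)) mu p T iT (-eT)).coeff 0 ≠ 0 := by
    rw [AddMonoidAlgebra.coeff_sub, Finsupp.sub_apply, a0, a1, ← map_sub]
    intro h0
    have h1 := Polynomial.toLaurent_injective (h0.trans (map_zero _).symm)
    have h3 : (X * (X * f)).coeff 1 = 0 := by
      rw [show (1 : ℕ) = 0 + 1 from rfl, coeff_X_mul, mul_coeff_zero, coeff_X_zero, zero_mul]
    have h4 : (X * f).coeff 1 = f.coeff 0 := by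
      rw [show (1 : ℕ) = 0 + 1 from rfl, coeff_X_mul]
    have e1 : q + X * f - ((1 - X - X ^ 2) * f + X * f) = q - f + X * f + X * (X * f) := by ring
    have h2 : (q - f + X * f + X * (X * f)).coeff 1 = 0 := by
      rw [← e1, h1, Polynomial.coeff_zero]
    rw [Polynomial.coeff_add, Polynomial.coeff_add, Polynomial.coeff_sub, h3, h4] at h2
    have hn := h.n
    have h0f := h.f0
    have hj := h.ko.j2
    omega
  have hpos' : Pos (lam.comp (incl (Ker (co phi iT))))
      (A0el phi D Z (fun i => eta (Z i)) mu p iT -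
        A1el phi D Z (fun i => eta (Z i)) mu p T iT (-eT)) := by
    intro x hx hx0
    rw [Finsupp.mem_support_iff, AddMonoidAlgebra.coeff_sub, Finsupp.sub_apply] at hx
    by_cases c0 : (A0el phi D Z (fun i => eta (Z i)) mu p iT).coeff x = 0
    · refine A1_pos (tau := -eT) (p := p) hs tri hF1 hD.inj hT hd hmT hD.bin x ?_ hx0
      rw [Finsupp.mem_support_iff]
      intro h1
      rw [c0, h1, sub_zero] at hx
      exact hx rfl
    · exact A0_pos (p := p) hs tri hF1 hD.inj hT hd hmT hD.bin x (Finsupp.mem_support_iff.mpr c0) hx0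
  have main := KO.H95.torus_pw hEv hZf hSl (A0 := A0el phi D Z (fun i => eta (Z i)) mu p iT)
    (A1 := A1el phi D Z (fun i => eta (Z i)) mu p T iT (-eT))
    (B := Bel phi D Z (fun i => eta (Z i)) mu T iT)
    (G := A0el phi D Z (fun i => eta (Z i)) mu p iT + cst (- -LaurentPolynomial.T 1) *
      A1el phi D Z (fun i => eta (Z i)) mu p T iT (-eT))
    (P := -(cst (1 - -LaurentPolynomial.T 1) * Bel phi D Z (fun i => eta (Z i)) mu T iT))
    (c := 1) one_ne_zero hpos' hdiff
    (fun z' _ u' w hw => pw hM hSS hFa hEv hF1 hD tri hT hd hmT hp hk hs z' (hzD z') u' w hw)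
    (fun z' u' => by
      rw [map_add, map_mul]
      congr 2
      unfold cst
      rw [H59.ev_single, AddChar.map_zero_eq_one, Circle.coe_one, mul_one, neg_neg, H07.evR_T,
        zpow_one])
    (fun z' u' => by
      rw [map_neg, map_mul]
      congr 2
      unfold cst
      rw [H59.ev_single, AddChar.map_zero_eq_one, Circle.coe_one, mul_one, sub_neg_eq_add,
        map_add, map_one, H07.evR_T, zpow_one]) z u
  refine ⟨?_, fun heq => ?_⟩
  · have h1 := main.1
    rw [map_neg, norm_neg] at h1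
    exact h1
  · have h1 := main.2 (by rw [map_neg, norm_neg]; exact heq)
    rw [map_neg] at h1
    rw [← h1, neg_neg]

end

end Pool.Agent.B5.KO2
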