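import Pool.Agent.Lib.MP_b5021c_nt.KO.H52.Kcl
import Pool.Agent.Lib.MP_b5021c_nt.E.H02.DtiE

/-!
# MP_b5021c_nt, all `θ`, K ODD, leaf O4, `l = 3`, row TK_DT: the special functional (helper2)

A closed triple of rays `r 0`, `r 1`, `r 2` and a ray `T` neutral for it: a functional which vanishes
on `T`, `r 1`, `r 2` and is positive on the other rays.
-/

set_option linter.unusedSectionVars false

namespace Pool.Agent.B5.KO2

open scoped LaurentPolynomial
open AddMonoidAlgebra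
open Pool.Agent.B5.KO.H71 (Tri Fr)
open Pool.Agent.B5.KO52
open Pool.Agent.B5.KO.H40 (flt flt_in flt_out mon_mul_coeff)

section

variable {O : Type} [CommRing O] [IsDomain O] [IsPrincipalIdealRing O] [Coef O] {P : Type}
  [Fintype P] [DecidableEq P] {L : Type} [AddCommGroup L] [Module.Free ℤ L] [Module.Finite ℤ L]

/-- A functional which vanishes on `T`, `r 1`, `r 2` and is positive on the other rays. -/
structure Sfn (D : AO O L) (r : ZMod 3 → L) (T : L) (lam : L →+ ℤ) : Prop where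
  vT : lam T = 0
  r1 : lam (r 1) = 0
  r2 : lam (r 2) = 0
  nn : ∀ a ∈ supp D, 0 ≤ lam a
  zr : ∀ a ∈ supp D, lam a = 0 → ∃ (n : ℕ) (x y w : ℤ), 0 < n ∧
    (n : ℤ) • a = x • T + y • r 1 + w • r 2

variable {phi : L →+ (P → ℤ)} {D : AO O L} {r : ZMod 3 → L} {e : ZMod 3 → (RO O)ˣ}
  {mu : ZMod 3 → L →+ ℤ} {T : L} {iT : P} {p : P} {tau : (RO O)ˣ}

theorem mu_vals (h : Tri phi D r e mu) : mu 0 (r 1) = 1 ∧ mu 0 (r 2) = -1 ∧ mu 1 (r 0) = -1 ∧
    mu 1 (r 1) = 0 ∧ mu 1 (r 2) = 1 ∧ mu 2 (r 0) = 1 ∧ mu 2 (r 1) = -1 ∧ mu 2 (r 2) = 0 :=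
  ⟨h.nxt 0, h.prv 0, h.prv 1, h.slf 1, h.nxt 1, h.nxt 2, h.prv 2, h.slf 2⟩

/-- The special functional exists. -/
theorem sfn_ex (hRS : RaySpanS) (h : Tri phi D r e mu) (hth : Thin (supp D))
    (hpos : ∃ lam : L →+ ℤ, Pos lam D) (hr : ∀ i, Ray D (r i)) (hT : Ray D T)
    (hTr : ∀ i, T ≠ r i) (hoth : ∀ R, Ray D R → (∀ i, R ≠ r i) → ∀ i, mu i R = 0) :
    ∃ lam : L →+ ℤ, Sfn D r T lam := by
  obtain ⟨hTs, hT0, l, hlT, hlp⟩ := hT
  obtain ⟨m01, m02, m10, m11, m12, m20, m21, m22⟩ := mu_vals h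
  have hmT := hoth T ⟨hTs, hT0, l, hlT, hlp⟩ hTr
  set lam : L →+ ℤ := l + (l (r 1)) • mu 2 - (l (r 2)) • mu 1 with hlam
  have hv : ∀ x, lam x = l x + l (r 1) * mu 2 x - l (r 2) * mu 1 x := by
    intro x
    rw [hlam]
    simp [smul_eq_mul]
  have v1 : lam (r 1) = 0 := by rw [hv, m21, m11]; ring
  have v2 : lam (r 2) = 0 := by rw [hv, m22, m12]; ring
  have vT : lam T = 0 := by rw [hv, hmT, hmT, hlT]; ring
  have hlr : ∀ i, 0 < l (r i) := fun i => hlp _ (hr i).1 (hr i).2.1 (Ne.symm (hTr i))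
  have v0 : 0 < lam (r 0) := by
    rw [hv, m20, m10]
    have := hlr 0
    have := hlr 1
    have := hlr 2
    linarith
  have hray : ∀ R, Ray D R → 0 ≤ lam R ∧ (lam R = 0 → ∃ x y w : ℤ,
      R = x • T + y • r 1 + w • r 2) := by
    intro R hR
    by_cases c0 : R = r 0
    · rw [c0]
      exact ⟨v0.le, fun h0 => absurd h0 v0.ne'⟩
    by_cases c1 : R = r 1
    · rw [c1]
      exact ⟨v1.ge, fun _ => ⟨0, 1, 0, by simp⟩⟩
    by_cases c2 : R = r 2
    · rw [c2]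
      exact ⟨v2.ge, fun _ => ⟨0, 0, 1, by simp⟩⟩
    by_cases cT : R = T
    · rw [cT]
      exact ⟨vT.ge, fun _ => ⟨1, 0, 0, by simp⟩⟩
    · have hne : ∀ i, R ≠ r i := by
        intro i
        rcases KO.H71.z3v i with rfl | rfl | rfl
        · exact c0
        · exact c1
        · exact c2
      have h1 : lam R = l R := by
        rw [hv, hoth R hR hne, hoth R hR hne]
        ring
      have h2 := hlp R hR.1 hR.2.1 cT
      rw [h1]
      exact ⟨h2.le, fun h0 => absurd h0 h2.ne'⟩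
  have hcl : ∀ x ∈ AddSubmonoid.closure {b | Ray D b}, 0 ≤ lam x ∧ (lam x = 0 →
      ∃ a y w : ℤ, x = a • T + y • r 1 + w • r 2) := by
    intro x hx
    induction hx using AddSubmonoid.closure_induction with
    | mem x hx => exact hray x hx
    | zero => exact ⟨by rw [map_zero], fun _ => ⟨0, 0, 0, by simp⟩⟩
    | add x y _ _ hx hy =>
      refine ⟨by rw [map_add]; exact add_nonneg hx.1 hy.1, fun h0 => ?_⟩
      rw [map_add] at h0
      have h1 := hx.1
      have h2 := hy.1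
      obtain ⟨a1, b1, c1, e1⟩ := hx.2 (by omega)
      obtain ⟨a2, b2, c2, e2⟩ := hy.2 (by omega)
      refine ⟨a1 + a2, b1 + b2, c1 + c2, ?_⟩
      rw [e1, e2, add_smul, add_smul, add_smul]
      abel
  have key : ∀ a ∈ supp D, a ≠ 0 → ∃ n : ℕ, 0 < n ∧ 0 ≤ lam a ∧ (lam a = 0 →
      ∃ x y w : ℤ, (n : ℤ) • a = x • T + y • r 1 + w • r 2) := by
    intro a ha ha0
    obtain ⟨n, hn, hmem⟩ := (hRS O L D hpos hth).1 a ha ha0
    obtain ⟨h1, h2⟩ := hcl _ hmem
    rw [map_nsmul, nsmul_eq_mul] at h1 h2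
    refine ⟨n, hn, ?_, fun h3 => ?_⟩
    · by_contra hneg
      push Not at hneg
      have : (n : ℤ) * lam a < 0 := mul_neg_of_pos_of_neg (by exact_mod_cast hn) hneg
      omega
    · obtain ⟨x, y, w, e1⟩ := h2 (by rw [h3, mul_zero])
      exact ⟨x, y, w, by rw [natCast_zsmul]; exact e1⟩
  refine ⟨lam, vT, v1, v2, fun a ha => ?_, fun a ha h0 => ?_⟩
  · by_cases ha0 : a = 0
    · rw [ha0, map_zero]
    · obtain ⟨n, _, h1, _⟩ := key a ha ha0
      exact h1
  · by_cases ha0 : a = 0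
    · exact ⟨1, 0, 0, 0, one_pos, by rw [ha0]; simp⟩
    · obtain ⟨n, hn, _, h1⟩ := key a ha ha0
      obtain ⟨x, y, w, e1⟩ := h1 h0
      exact ⟨n, x, y, w, hn, e1⟩

variable {lam : L →+ ℤ}

theorem smul_zero' {n : ℕ} (hn : 0 < n) {a : L} (h : (n : ℤ) • a = 0) : a = 0 :=
  (smul_eq_zero.mp h).resolve_left (by exact_mod_cast hn.ne')

/-- An exponent proportional to `T`. -/
theorem prop_T (hT : co phi iT T = 1) {n : ℕ} (hn : 0 < n) {a : L} {x : ℤ}
    (hb : phi a iT = 0 ∨ phi a iT = 1) (h : (n : ℤ) • a = x • T) : a = 0 ∨ a = T := by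
  have hT1 : phi T iT = 1 := hT
  have h1 := congrArg (fun y => phi y iT) h
  simp only [map_zsmul, Pi.smul_apply, hT1, smul_eq_mul, mul_one] at h1
  rcases hb with h2 | h2
  · left
    rw [h2, mul_zero] at h1
    rw [← h1, zero_smul] at h
    exact smul_zero' hn h
  · right
    rw [h2, mul_one] at h1
    rw [← h1] at h
    have h3 : (n : ℤ) • (a - T) = 0 := by rw [smul_sub, h, sub_self]
    exact sub_eq_zero.mp (smul_zero' hn h3)

/-- Positivity on the exponents killed by all `mu i`. -/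
theorem Sfn.im (hs : Sfn D r T lam) (h : Tri phi D r e mu) (hT : co phi iT T = 1)
    (hmT : ∀ i, mu i T = 0) (hb : ∀ a ∈ supp D, Bin phi a) {a : L} (ha : a ∈ supp D)
    (hm : ∀ i, mu i a = 0) (h0 : a ≠ 0) (h1 : a ≠ T) : 0 < lam a := by
  obtain ⟨m01, m02, m10, m11, m12, m20, m21, m22⟩ := mu_vals h
  refine lt_of_le_of_ne (hs.nn a ha) fun h2 => ?_
  obtain ⟨n, x, y, w, hn, e1⟩ := hs.zr a ha h2.symm
  have e2 := congrArg (mu 1) e1
  have e3 := congrArg (mu 0) e1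
  simp only [map_add, map_zsmul, hm, hmT, m11, m12, smul_eq_mul, mul_zero, mul_one, zero_add] at e2
  simp only [map_add, map_zsmul, hm, hmT, m01, m02, smul_eq_mul, mul_zero, mul_one, zero_add] at e3
  have ew : w = 0 := by omega
  have ey : y = 0 := by omega
  rw [ew, ey, zero_smul, zero_smul, add_zero, add_zero] at e1
  rcases prop_T hT hn (hb a ha iT) e1 with h3 | h3
  · exact h0 h3
  · exact h1 h3

/-- Positivity on the free part. -/
theorem Sfn.fr (hs : Sfn D r T lam) (h : Tri phi D r e mu) (hF1 : F1S)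
    (hI : Function.Injective phi) (hT : co phi iT T = 1) (hd : ∀ i, Dj phi (r i) T)
    (hmT : ∀ i, mu i T = 0) (hb : ∀ a ∈ supp D, Bin phi a) {a : L}
    (ha : a ∈ supp (psi phi D r e mu)) (h0 : a ≠ 0) (h1 : a ≠ T) : 0 < lam a := by
  obtain ⟨m01, m02, m10, m11, m12, m20, m21, m22⟩ := mu_vals h
  obtain ⟨hfr, -⟩ := psi_supp ha
  have ha1 : a + r 1 ∈ supp D := by
    intro h2
    apply ha
    change D.coeff (a + r 1) = 0 at h2
    rw [psi_r h hF1 hI hb hfr 1, h2, mul_zero]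
  have e0 : lam (a + r 1) = lam a := by rw [map_add, hs.r1, add_zero]
  have h2 := hs.nn _ ha1
  rw [e0] at h2
  refine lt_of_le_of_ne h2 fun h3 => ?_
  obtain ⟨n, x, y, w, hn, e1⟩ := hs.zr _ ha1 (by rw [e0]; exact h3.symm)
  have hm := hfr.2
  have e2 := congrArg (mu 1) e1
  have e3 := congrArg (mu 0) e1
  simp only [map_add, map_zsmul, hm, hmT, m11, m12, smul_eq_mul, mul_zero, mul_one, zero_add,
    add_zero] at e2
  simp only [map_add, map_zsmul, hm, hmT, m01, m02, smul_eq_mul, mul_zero, mul_one, zero_add] at e3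
  have ew : w = 0 := by omega
  have ey : y = n := by omega
  rw [ew, ey, zero_smul, add_zero, smul_add] at e1
  have e4 : (n : ℤ) • a = x • T := add_right_cancel e1
  have hk : phi a iT = 0 ∨ phi a iT = 1 := by
    have h4 := hb _ ha1 iT
    have h5 : phi (r 1) iT = 0 := kr hT hd 1
    rw [map_add, Pi.add_apply, h5, add_zero] at h4
    exact h4
  rcases prop_T hT hn hk e4 with h4 | h4
  · exact h0 h4
  · exact h1 h4

theorem Sfn.g0 (hs : Sfn D r T lam) (h : Tri phi D r e mu) (hF1 : F1S)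
    (hI : Function.Injective phi) (hT : co phi iT T = 1) (hd : ∀ i, Dj phi (r i) T)
    (hmT : ∀ i, mu i T = 0) (hb : ∀ a ∈ supp D, Bin phi a) {a : L}
    (ha : a ∈ supp (g0 phi D r e mu p)) (h0 : a ≠ 0) (h1 : a ≠ T) : 0 < lam a := by
  obtain ⟨h2, h3 | h3⟩ := g0_supp ha
  · exact hs.im h hT hmT hb h3 h2.2 h0 h1
  · exact hs.fr h hF1 hI hT hd hmT hb h3 h0 h1

theorem Sfn.fr' (hs : Sfn D r T lam) (h : Tri phi D r e mu) (hF1 : F1S)
    (hI : Function.Injective phi) (hT : co phi iT T = 1) (hd : ∀ i, Dj phi (r i) T)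
    (hmT : ∀ i, mu i T = 0) (hb : ∀ a ∈ supp D, Bin phi a) {a : L}
    (ha : a ∈ supp (psi phi D r e mu)) : 0 ≤ lam a := by
  by_cases h0 : a = 0
  · rw [h0, map_zero]
  by_cases h1 : a = T
  · rw [h1, hs.vT]
  exact (hs.fr h hF1 hI hT hd hmT hb ha h0 h1).le

theorem Sfn.g0' (hs : Sfn D r T lam) (h : Tri phi D r e mu) (hF1 : F1S)
    (hI : Function.Injective phi) (hT : co phi iT T = 1) (hd : ∀ i, Dj phi (r i) T)
    (hmT : ∀ i, mu i T = 0) (hb : ∀ a ∈ supp D, Bin phi a) {a : L}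
    (ha : a ∈ supp (KO52.g0 phi D r e mu p)) : 0 ≤ lam a := by
  by_cases h0 : a = 0
  · rw [h0, map_zero]
  by_cases h1 : a = T
  · rw [h1, hs.vT]
  exact (hs.g0 h hF1 hI hT hd hmT hb ha h0 h1).le

end

end Pool.Agent.B5.KO2
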