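import Pool.Agent.Lib.MP_b5021c_nt.KO.H02.TkA

/-!
# MP_b5021c_nt, all `θ`, K ODD, leaf O4, `l = 3`, row TK_DT: the zero-free domain (helper2)

`k` the coordinate of a port of `T`, `F = F_0 + w^T F_1` with `F_0`, `F_1` on `Ker k`:
`A0 = res g0`, `A1 = - tau (g0)_1`, `B = res (free part without T)`.
-/

set_option linter.unusedSectionVars false

namespace Pool.Agent.B5.KO2

open scoped LaurentPolynomial
open AddMonoidAlgebra
open Pool.Agent.B5.KO.H71 (Tri Fr)
open Pool.Agent.B5.KO52
open Pool.Agent.B5.KO.H40 (flt flt_in flt_out mon_mul_coeff)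
open Pool.Agent.B5.H83

section

variable {O : Type} [CommRing O] [IsDomain O] [IsPrincipalIdealRing O] [Coef O] {P : Type}
  [Fintype P] [DecidableEq P] {L : Type} [AddCommGroup L] [Module.Free ℤ L] [Module.Finite ℤ L]

/-- The part of `F` with `w^T`, times `c`. -/
noncomputable def P1 (k : L →+ ℤ) (T : L) (c : RO O) (F : AO O L) : AO O (Ker k) :=
  res (Ker k) (single (-T) c * F)

theorem P1_coeff (k : L →+ ℤ) (T : L) (c : RO O) (F : AO O L) (x : Ker k) :
    (P1 k T c F).coeff x = c * F.coeff ((x : L) + T) := by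
  unfold P1
  rw [res_coeff, mon_mul_coeff, sub_neg_eq_add]

variable {phi : L →+ (P → ℤ)} {D : AO O L} {r : ZMod 3 → L} {e : ZMod 3 → (RO O)ˣ}
  {mu : ZMod 3 → L →+ ℤ} {T : L} {iT : P} {p : P} {tau : (RO O)ˣ} {lam : L →+ ℤ}

/-- The functionals. -/
def Mu4 (k lam : L →+ ℤ) (mu : ZMod 3 → L →+ ℤ) : Fin 4 → L →+ ℤ := ![lam, k, -mu 2, mu 1]

theorem mev4 (k lam : L →+ ℤ) (mu : ZMod 3 → L →+ ℤ) (u : AddChar L Circle) (s c c1 c2 : ℂ) (a : L)
    (q : ℂ) : mev u (Mu4 k lam mu) ![s, c, c1, c2] (single a q : CA L) =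
      q * ((u a : Circle) : ℂ) * (s ^ (lam a).toNat * c ^ (k a).toNat * c1 ^ (-mu 2 a).toNat *
        c2 ^ (mu 1 a).toNat) := by
  rw [mev_single, Fin.prod_univ_four]
  rfl

/-- Evaluation of elements which do not move. -/
theorem ev_01k {k : L →+ ℤ} (hT : k T = 1) (hlT : lam T = 0) (z : Circle)
    (u : AddChar (Ker k) Circle) (s c c1 c2 : ℂ) (F : AO O L)
    (hF : ∀ a ∈ supp F, (k a = 0 ∨ k a = 1) ∧ ∀ i, mu i a = 0) :
    mev (u.compAddMonoidHom (prj k T hT)) (Mu4 k lam mu) ![s, c, c1, c2]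
      (spec z F) =
      (sl u (lam.comp (incl (Ker k))) (spec z (res (Ker k) F))).eval s +
        c * (sl u (lam.comp (incl (Ker k))) (spec z (P1 k T 1 F))).eval s := by
  let f : AO O L →+ ℂ :=
    { toFun := fun F => mev (u.compAddMonoidHom (prj k T hT)) (Mu4 k lam mu) ![s, c, c1, c2]
        (spec z F)
      map_zero' := by rw [map_zero, mev_zero]
      map_add' := fun p q => by rw [map_add, mev_add] }
  let g : AO O L →+ ℂ :=
    { toFun := fun F => (sl u (lam.comp (incl (Ker k))) (spec z (res (Ker k) F))).eval s +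
        c * (sl u (lam.comp (incl (Ker k))) (spec z (P1 k T 1 F))).eval s
      map_zero' := by
        unfold P1
        rw [mul_zero, res_zero, map_zero, sl_zero]
        simp
      map_add' := fun p q => by
        unfold P1
        rw [mul_add, res_add, res_add, map_add, map_add, sl_add, sl_add, Polynomial.eval_add,
          Polynomial.eval_add]
        ring }
  refine eq_of_single f g F (fun a ha => ?_)
  obtain ⟨hka, hma⟩ := hF a ha
  change mev _ _ _ (spec z (single a (F.coeff a))) =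
    (sl u (lam.comp (incl (Ker k))) (spec z (res (Ker k) (single a (F.coeff a))))).eval s +
      c * (sl u (lam.comp (incl (Ker k)))
        (spec z (res (Ker k) (single (-T) (1 : RO O) * single a (F.coeff a))))).eval s
  rw [spec_single, mev4, single_mul_single, one_mul, hma 1, hma 2, neg_zero, Int.toNat_zero,
    pow_zero, pow_zero, mul_one, mul_one]
  have hkT : k (-T + a) = k a - 1 := by rw [map_add, map_neg, hT]; ring
  rcases hka with h0 | h1
  · have hm : a ∈ Ker k := h0
    have hp : prj k T hT a = ⟨a, hm⟩ := by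
      apply Subtype.ext
      rw [prj_coe, h0, zero_smul, sub_zero]
    have hn : -T + a ∉ Ker k := by
      intro h2
      rw [mem_Ker, hkT, h0] at h2
      norm_num at h2
    rw [res_single_mem _ _ hm, res_single_not _ _ hn, spec_single, sl_single, map_zero, sl_zero,
      Polynomial.eval_monomial, Polynomial.eval_zero, mul_zero, add_zero, h0, Int.toNat_zero,
      pow_zero, mul_one]
    have h2 : ((u.compAddMonoidHom (prj k T hT)) a : Circle) = u ⟨a, hm⟩ := by
      rw [AddChar.compAddMonoidHom_apply, hp]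
    rw [h2]
    rfl
  · have hn : a ∉ Ker k := by
      intro h2
      rw [mem_Ker, h1] at h2
      exact one_ne_zero h2
    have hm : -T + a ∈ Ker k := by
      rw [mem_Ker, hkT, h1, sub_self]
    have hp : prj k T hT a = ⟨-T + a, hm⟩ := by
      apply Subtype.ext
      rw [prj_coe, h1, one_smul]
      change a - T = -T + a
      abel
    rw [res_single_not _ _ hn, res_single_mem _ _ hm, spec_single, sl_single, map_zero, sl_zero,
      Polynomial.eval_zero, zero_add, Polynomial.eval_monomial, h1, Int.toNat_one, pow_one]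
    have h2 : ((u.compAddMonoidHom (prj k T hT)) a : Circle) = u ⟨-T + a, hm⟩ := by
      rw [AddChar.compAddMonoidHom_apply, hp]
    have h3 : (lam.comp (incl (Ker k))) ⟨-T + a, hm⟩ = lam a := by
      change lam (-T + a) = lam a
      rw [map_add, map_neg, hlT, neg_zero, zero_add]
    rw [h2, h3]
    ring

theorem ev_01 (hT : co phi iT T = 1) (hlT : lam T = 0) (z : Circle)
    (u : AddChar (Ker (co phi iT)) Circle) (s c c1 c2 : ℂ) (F : AO O L)
    (hF : ∀ a ∈ supp F, (co phi iT a = 0 ∨ co phi iT a = 1) ∧ ∀ i, mu i a = 0) :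
    mev (u.compAddMonoidHom (prj (co phi iT) T hT)) (Mu4 (co phi iT) lam mu) ![s, c, c1, c2]
      (spec z F) =
      (sl u (lam.comp (incl (Ker (co phi iT)))) (spec z (res (Ker (co phi iT)) F))).eval s +
        c * (sl u (lam.comp (incl (Ker (co phi iT)))) (spec z (P1 (co phi iT) T 1 F))).eval s :=
  ev_01k hT hlT z u s c c1 c2 F hF

/-- Evaluation of elements without `T`. -/
theorem ev_0 (hT : co phi iT T = 1) (hlT : lam T = 0) (z : Circle)
    (u : AddChar (Ker (co phi iT)) Circle) (s c c1 c2 : ℂ) (F : AO O L)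
    (hF : ∀ a ∈ supp F, co phi iT a = 0 ∧ ∀ i, mu i a = 0) :
    mev (u.compAddMonoidHom (prj (co phi iT) T hT)) (Mu4 (co phi iT) lam mu) ![s, c, c1, c2]
      (spec z F) =
      (sl u (lam.comp (incl (Ker (co phi iT)))) (spec z (res (Ker (co phi iT)) F))).eval s := by
  rw [ev_01 hT hlT z u s c c1 c2 F (fun a ha => ⟨Or.inl (hF a ha).1, (hF a ha).2⟩)]
  have h1 : P1 (co phi iT) T 1 F = 0 := by
    apply AddMonoidAlgebra.ext
    apply Finsupp.ext
    intro x
    rw [P1_coeff, one_mul]
    change F.coeff ((x : L) + T) = 0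
    by_contra hne
    have h2 := (hF _ hne).1
    rw [map_add, hT, show co phi iT (x : L) = 0 from x.2] at h2
    norm_num at h2
  rw [h1, map_zero, sl_zero, Polynomial.eval_zero, mul_zero, add_zero]

/-- Evaluation of `1 - single S t⁻¹`. -/
theorem ev_f (u : AddChar L Circle) (z : Circle) (k : L →+ ℤ) (s c c1 c2 : ℂ) (S : L)
    (t : (RO O)ˣ) (v : ℂ) (hv : s ^ (lam S).toNat * c ^ (k S).toNat * c1 ^ (-mu 2 S).toNat *
        c2 ^ (mu 1 S).toNat = v * evR z (t : RO O) * ((u S : Circle) : ℂ)⁻¹) :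
    mev u (Mu4 k lam mu) ![s, c, c1, c2]
      (spec z (1 - single S ((t⁻¹ : (RO O)ˣ) : RO O) : AO O L)) = 1 - v := by
  have h0 : spec z (1 - single S ((t⁻¹ : (RO O)ˣ) : RO O) : AO O L) =
      single 0 1 + single S (-evR z ((t⁻¹ : (RO O)ˣ) : RO O)) := by
    rw [map_sub, map_one, spec_single, single_neg, sub_eq_add_neg]
    rfl
  rw [h0, mev_add, mev4, mev4, hv]
  have h3 : evR z ((t⁻¹ : (RO O)ˣ) : RO O) * evR z (t : RO O) = 1 := by
    rw [← map_mul, Units.inv_mul, map_one]
  have h4 : ((u S : Circle) : ℂ) * ((u S : Circle) : ℂ)⁻¹ = 1 :=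
    mul_inv_cancel₀ (Circle.coe_ne_zero _)
  simp only [map_zero, neg_zero, Int.toNat_zero, pow_zero, mul_one, AddChar.map_zero_eq_one,
    Circle.coe_one]
  linear_combination (-v * ((u S : Circle) : ℂ) * ((u S : Circle) : ℂ)⁻¹) * h3 - v * h4

/-- Supports of `1 - single S t⁻¹`. -/
theorem nn_f (z : Circle) (m : L →+ ℤ) (S : L) (t : (RO O)ˣ) (hS : 0 ≤ m S) :
    Nn m (spec z (1 - single S ((t⁻¹ : (RO O)ˣ) : RO O) : AO O L)) := by
  classical
  intro a ha
  have h0 : spec z (1 - single S ((t⁻¹ : (RO O)ˣ) : RO O) : AO O L) =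
      single 0 1 + single S (-evR z ((t⁻¹ : (RO O)ˣ) : RO O)) := by
    rw [map_sub, map_one, spec_single, single_neg, sub_eq_add_neg]
    rfl
  rw [h0] at ha
  by_cases h1 : a = 0
  · rw [h1, map_zero]
  · by_cases h2 : a = S
    · rw [h2]
      exact hS
    · exfalso
      rw [Finsupp.mem_support_iff, coeff_add, Finsupp.add_apply, coeff_single, coeff_single,
        Finsupp.single_apply, Finsupp.single_apply, if_neg (Ne.symm h1), if_neg (Ne.symm h2),
        add_zero] at ha
      exact ha rfl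

/-- The element `B`: the free part without `T`. -/
noncomputable def Bel (phi : L →+ (P → ℤ)) (D : AO O L) (r : ZMod 3 → L) (e : ZMod 3 → (RO O)ˣ)
    (mu : ZMod 3 → L →+ ℤ) (T : L) (iT : P) : AO O (Ker (co phi iT)) :=
  res (Ker (co phi iT)) (flt {u | Dj phi T u} (psi phi D r e mu))

/-- The element `A0`. -/
noncomputable def A0el (phi : L →+ (P → ℤ)) (D : AO O L) (r : ZMod 3 → L) (e : ZMod 3 → (RO O)ˣ)
    (mu : ZMod 3 → L →+ ℤ) (p iT : P) : AO O (Ker (co phi iT)) :=
  res (Ker (co phi iT)) (g0 phi D r e mu p)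

/-- The element `A1`. -/
noncomputable def A1el (phi : L →+ (P → ℤ)) (D : AO O L) (r : ZMod 3 → L) (e : ZMod 3 → (RO O)ˣ)
    (mu : ZMod 3 → L →+ ℤ) (p : P) (T : L) (iT : P) (tau : (RO O)ˣ) : AO O (Ker (co phi iT)) :=
  P1 (co phi iT) T (-(tau : RO O)) (g0 phi D r e mu p)

theorem A1_sl (z : Circle) (u : AddChar (Ker (co phi iT)) Circle) (s : ℂ)
    (lK : Ker (co phi iT) →+ ℤ) :
    (sl u lK (spec z (A1el phi D r e mu p T iT tau))).eval s =
      -(evR z (tau : RO O) *
        (sl u lK (spec z (P1 (co phi iT) T 1 (g0 phi D r e mu p)))).eval s) := by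
  have h1 : A1el phi D r e mu p T iT tau =
      cst (-(tau : RO O)) * P1 (co phi iT) T 1 (g0 phi D r e mu p) := by
    apply AddMonoidAlgebra.ext
    apply Finsupp.ext
    intro x
    unfold A1el
    rw [P1_coeff, KO.H71.cst_co, P1_coeff, one_mul]
  rw [h1, map_mul]
  have h2 : spec z (cst (-(tau : RO O)) : AO O (Ker (co phi iT))) =
      single 0 (-evR z (tau : RO O)) := by
    unfold cst
    rw [spec_single, map_neg]
  rw [h2]
  let f : CA (Ker (co phi iT)) →+ ℂ :=
    { toFun := fun F => (sl u lK (single 0 (-evR z (tau : RO O)) * F)).eval s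
      map_zero' := by rw [mul_zero, sl_zero, Polynomial.eval_zero]
      map_add' := fun p q => by rw [mul_add, sl_add, Polynomial.eval_add] }
  let g : CA (Ker (co phi iT)) →+ ℂ :=
    { toFun := fun F => -(evR z (tau : RO O) * (sl u lK F).eval s)
      map_zero' := by rw [sl_zero, Polynomial.eval_zero, mul_zero, neg_zero]
      map_add' := fun p q => by
        rw [sl_add, Polynomial.eval_add]
        ring }
  refine eq_of_single f g _ (fun a ha => ?_)
  change (sl u lK (single 0 (-evR z (tau : RO O)) * single a _)).eval s =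
    -(evR z (tau : RO O) * (sl u lK (single a _)).eval s)
  rw [single_mul_single, zero_add, sl_single, sl_single, Polynomial.eval_monomial,
    Polynomial.eval_monomial]
  ring

end

end Pool.Agent.B5.KO2
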