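import Pool.Agent.Lib.MP_b5021c_nt.KO.H02.TkB
import Pool.Agent.Lib.MP_b5021c_nt.KO.H21.HurA

/-!
# MP_b5021c_nt, all `θ`, K ODD, leaf O4, `l = 3`, row TK_DT: the pointwise inequality (helper2)

The zero-free domain of the face, `‖A1 - (1 + w)^2 B‖ ≤ ‖A0 - (1 + w)^2 B‖` on the torus, and the
slices of `A0 + z A1` have no zero in the open disc.
-/

set_option linter.unusedSectionVars false

namespace Pool.Agent.B5.KO2

open scoped LaurentPolynomial
open AddMonoidAlgebra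
open Pool.Agent.B5.KO.H71 (Tri Fr)
open Pool.Agent.B5.KO52
open Pool.Agent.B5.KO.H40 (flt flt_in flt_out mon_mul_coeff)
open Pool.Agent.B5.H83

section

variable {O : Type} [CommRing O] [IsDomain O] [IsPrincipalIdealRing O] [Coef O] {P : Type}
  [Fintype P] [DecidableEq P] {L : Type} [AddCommGroup L] [Module.Free ℤ L] [Module.Finite ℤ L]

variable {phi : L →+ (P → ℤ)} {D : AO O L} {r : ZMod 3 → L} {e : ZMod 3 → (RO O)ˣ}
  {mu : ZMod 3 → L →+ ℤ} {T : L} {iT : P} {p : P} {tau : (RO O)ˣ} {lam : L →+ ℤ}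

theorem mev_sub {ι : Type} [Fintype ι] (u : AddChar L Circle) (m : ι → L →+ ℤ) (t : ι → ℂ)
    (p q : CA L) : mev u m t (p - q) = mev u m t p - mev u m t q := by
  have h1 := mev_add u m t (p - q) q
  rw [sub_add_cancel] at h1
  rw [h1, add_sub_cancel_right]

/-- The values on the face. -/
theorem face_vals (h : Tri phi D r e mu) (hF1 : F1S) (hI : Function.Injective phi)
    (hb : ∀ a ∈ supp D, Bin phi a) (hp : phi (r 0) p = 1) {a : L} (ha : a ∈ supp D)
    (hpa : phi a p = 0) : (-mu 2 a = 0 ∨ -mu 2 a = 1) ∧ (mu 1 a = 0 ∨ mu 1 a = 1) := by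
  obtain ⟨m01, m02, m10, m11, m12, m20, m21, m22⟩ := mu_vals h
  rcases h.nf hF1 hI hb ha with h1 | ⟨i, v, hv, h1⟩ | ⟨i, v, hv, h1⟩
  · exact ⟨Or.inl (by rw [h1, neg_zero]), Or.inl (h1 1)⟩
  · have hvp := fr_p hp hv
    have e1 : mu 1 a = mu 1 (r i) := by rw [h1, map_add, hv.2, zero_add]
    have e2 : mu 2 a = mu 2 (r i) := by rw [h1, map_add, hv.2, zero_add]
    rcases KO.H71.z3v i with rfl | rfl | rfl
    · exfalso
      rw [h1, map_add, Pi.add_apply, hvp, hp] at hpa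
      norm_num at hpa
    · rw [e1, e2, m11, m21]
      norm_num
    · rw [e1, e2, m12, m22]
      norm_num
  · have hvp := fr_p hp hv
    have e1 : mu 1 a = mu 1 (r (i + 1)) + mu 1 (r (i - 1)) := by
      rw [h1, map_add, map_add, hv.2, zero_add]
    have e2 : mu 2 a = mu 2 (r (i + 1)) + mu 2 (r (i - 1)) := by
      rw [h1, map_add, map_add, hv.2, zero_add]
    obtain ⟨p1, p2⟩ := p12 h hp
    rcases KO.H71.z3v i with rfl | rfl | rfl
    · rw [show (0 : ZMod 3) + 1 = 1 by decide, show (0 : ZMod 3) - 1 = 2 by decide] at e1 e2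
      rw [e1, e2, m11, m12, m21, m22]
      norm_num
    · exfalso
      rw [show (1 : ZMod 3) + 1 = 2 by decide, show (1 : ZMod 3) - 1 = 0 by decide] at h1
      rw [h1, map_add, map_add, Pi.add_apply, Pi.add_apply, hvp, hp, p2] at hpa
      norm_num at hpa
    · exfalso
      rw [show (2 : ZMod 3) + 1 = 0 by decide, show (2 : ZMod 3) - 1 = 1 by decide] at h1
      rw [h1, map_add, map_add, Pi.add_apply, Pi.add_apply, hvp, hp, p1] at hpa
      norm_num at hpa

/-- THE ZERO-FREE DOMAIN of the face. -/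
theorem zf (hM : MultiS) (hSS : StSpecS) (hFa : FaceS) (hEv : EvRS) (hF1 : F1S) (hD : DD phi D)
    (h : Tri phi D r e mu) (hT : co phi iT T = 1) (hd : ∀ i, Dj phi (r i) T)
    (hmT : ∀ i, mu i T = 0) (hp : phi (r 0) p = 1) (hk : Kfl phi (psi phi D r e mu) T tau)
    (hs : Sfn D r T lam) (z : Circle) (hz : evR z (D.coeff 0) ≠ 0)
    (u : AddChar (Ker (co phi iT)) Circle) {s Y y1 y2 : ℂ} (h0 : ‖s‖ < 1) (hY : ‖Y‖ < 1)
    (h1 : ‖y1‖ < 1) (h2 : ‖y2‖ < 1) :
    (sl u (lam.comp (incl (Ker (co phi iT)))) (spec z (A0el phi D r e mu p iT))).eval s -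
      Y * (sl u (lam.comp (incl (Ker (co phi iT))))
        (spec z (A1el phi D r e mu p T iT tau))).eval s -
      (sl u (lam.comp (incl (Ker (co phi iT)))) (spec z (Bel phi D r e mu T iT))).eval s *
        ((1 - Y) * ((1 - y1) * (1 - y2))) ≠ 0 := by
  classical
  obtain ⟨m01, m02, m10, m11, m12, m20, m21, m22⟩ := mu_vals h
  have hI := hD.inj
  have hb := hD.bin
  have hNp : Nn (co phi p) D := by
    intro a ha
    have h3 : phi a p = 0 ∨ phi a p = 1 := hb a (Finsupp.mem_support_iff.mp ha) p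
    change 0 ≤ phi a p
    omega
  have hgs := (hFa O L D (co phi p) hD.st hNp).1
  have hface := face h hF1 hI hb hp
  obtain ⟨F, hF⟩ : ∃ F : AO O L, F = gpart (co phi p) 0 D := ⟨_, rfl⟩
  rw [← hF] at hgs hface
  have hF0 : F.coeff 0 = D.coeff 0 := by
    rw [hF, H96.gpart_coeff, if_pos (map_zero _)]
  have hFs : ∀ a ∈ supp F, a ∈ supp D ∧ phi a p = 0 := by
    intro a ha
    have h3 : F.coeff a ≠ 0 := ha
    rw [hF, H96.gpart_coeff] at h3
    by_cases hpa : co phi p a = 0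
    · rw [if_pos hpa] at h3
      exact ⟨h3, hpa⟩
    · rw [if_neg hpa] at h3
      exact absurd rfl h3
  have hSC : StableC (spec z F) := (hSS O L F).1 hgs z (by rw [hF0]; exact hz)
  obtain ⟨uL, huL⟩ : ∃ uL : AddChar L Circle, uL = u.compAddMonoidHom (prj (co phi iT) T hT) :=
    ⟨_, rfl⟩
  have huT : uL T = 1 := by
    rw [huL, AddChar.compAddMonoidHom_apply]
    have h3 : prj (co phi iT) T hT T = 0 := by
      apply Subtype.ext
      rw [prj_coe, hT, one_smul, sub_self]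
      rfl
    rw [h3, AddChar.map_zero_eq_one]
  obtain ⟨c, hc⟩ : ∃ c : ℂ, c = Y * evR z (tau : RO O) := ⟨_, rfl⟩
  obtain ⟨c1, hc1⟩ : ∃ c1 : ℂ, c1 = y1 * evR z (e 1 : RO O) * ((uL (r 1) : Circle) : ℂ)⁻¹ :=
    ⟨_, rfl⟩
  obtain ⟨c2, hc2⟩ : ∃ c2 : ℂ, c2 = y2 * evR z (e 2 : RO O) * ((uL (r 2) : Circle) : ℂ)⁻¹ :=
    ⟨_, rfl⟩
  have hee : ∀ t : (RO O)ˣ, ‖evR z (t : RO O)‖ = 1 := fun t => (hEv O).2.1 z _ t.isUnit
  have hcn : ‖c‖ < 1 := by rw [hc, norm_mul, hee, mul_one]; exact hY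
  have hcn1 : ‖c1‖ < 1 := by
    rw [hc1, norm_mul, norm_mul, hee, norm_inv, Circle.norm_coe, inv_one, mul_one, mul_one]
    exact h1
  have hcn2 : ‖c2‖ < 1 := by
    rw [hc2, norm_mul, norm_mul, hee, norm_inv, Circle.norm_coe, inv_one, mul_one, mul_one]
    exact h2
  have htn : ∀ i, ‖(![s, c, c1, c2] : Fin 4 → ℂ) i‖ < 1 := by
    intro i
    fin_cases i
    · exact h0
    · exact hcn
    · exact hcn1
    · exact hcn2
  -- the functionals are non-negative on the face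
  have hval : ∀ a ∈ supp F, 0 ≤ lam a ∧ 0 ≤ co phi iT a ∧ 0 ≤ -mu 2 a ∧ 0 ≤ mu 1 a := by
    intro a ha
    obtain ⟨h3, h4⟩ := hFs a ha
    obtain ⟨h5, h6⟩ := face_vals h hF1 hI hb hp h3 h4
    have h7 : phi a iT = 0 ∨ phi a iT = 1 := hb a h3 iT
    refine ⟨hs.nn a h3, ?_, ?_, ?_⟩
    · change 0 ≤ phi a iT
      omega
    · omega
    · omega
  have hNn : ∀ i, Nn (Mu4 (co phi iT) lam mu i) (spec z F) := by
    intro i a ha
    obtain ⟨g1, g2, g3, g4⟩ := hval a (H02.spec_supp ha)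
    fin_cases i
    · exact g1
    · exact g2
    · exact g3
    · exact g4
  have k1 : co phi iT (r 1) = 0 := kr hT hd 1
  have k2 : co phi iT (r 2) = 0 := kr hT hd 2
  have hsum : ∀ a ∈ (spec z F).coeff.support, a ≠ 0 →
      0 < ∑ i, Mu4 (co phi iT) lam mu i a := by
    intro a ha ha0
    have ha' := H02.spec_supp ha
    obtain ⟨g1, g2, g3, g4⟩ := hval a ha'
    have g3' : 0 ≤ (-mu 2) a := g3
    rw [Fin.sum_univ_four]
    change 0 < lam a + co phi iT a + (-mu 2) a + mu 1 a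
    by_contra hcon
    push Not at hcon
    have e1 : lam a = 0 := by omega
    have e2 : co phi iT a = 0 := by omega
    have e3' : (-mu 2) a = 0 := by omega
    have e3 : mu 2 a = 0 := neg_eq_zero.mp e3'
    have e4 : mu 1 a = 0 := by omega
    obtain ⟨n, x, y, w, hn, e5⟩ := hs.zr a (hFs a ha').1 e1
    have e6 := congrArg (co phi iT) e5
    have e7 := congrArg (mu 1) e5
    have e8 := congrArg (mu 2) e5
    simp only [map_add, map_zsmul, e2, hT, k1, k2, smul_eq_mul, mul_zero, mul_one,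
      add_zero] at e6
    simp only [map_add, map_zsmul, e4, hmT, m11, m12, smul_eq_mul, mul_zero, mul_one,
      zero_add] at e7
    simp only [map_add, map_zsmul, e3, hmT, m21, m22, smul_eq_mul, mul_zero, zero_add,
      add_zero] at e8
    have ey : y = 0 := by omega
    rw [← e6, ← e7, ey, zero_smul, zero_smul, zero_smul, add_zero, add_zero] at e5
    exact ha0 (smul_zero' hn e5)
  have hmain := hM L (spec z F) hSC (Fin 4) (Mu4 (co phi iT) lam mu) hNn hsum uL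
    ![s, c, c1, c2] htn
  -- evaluation
  obtain ⟨ps, hps⟩ : ∃ ps : AO O L, ps = flt {v | Dj phi T v} (psi phi D r e mu) := ⟨_, rfl⟩
  have hpsS : ∀ a ∈ supp ps, a ∈ supp (psi phi D r e mu) ∧ co phi iT a = 0 := by
    intro a ha
    have h3 : ps.coeff a ≠ 0 := ha
    by_cases hdj : Dj phi T a
    · rw [hps, flt_in (Q := {v | Dj phi T v}) _ hdj] at h3
      refine ⟨h3, ?_⟩
      exact (hdj iT).resolve_right (by rw [show phi T iT = 1 from hT]; exact one_ne_zero)
    · rw [hps, flt_out (Q := {v | Dj phi T v}) _ hdj] at h3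
      exact absurd rfl h3
  have hfe : F = g0 phi D r e mu p - ps * ((1 - single T ((tau⁻¹ : (RO O)ˣ) : RO O)) *
      ((1 - single (r 1) (((e 1)⁻¹ : (RO O)ˣ) : RO O)) *
        (1 - single (r 2) (((e 2)⁻¹ : (RO O)ˣ) : RO O)))) := by
    rw [hface]
    conv_lhs => rw [hk.eq]
    rw [← hps]
    ring
  have hnp : ∀ i, Nn (Mu4 (co phi iT) lam mu i) (spec z ps) := by
    intro i a ha
    obtain ⟨h3, h4⟩ := hpsS a (H02.spec_supp ha)
    have h5 := (psi_supp h3).1.2
    fin_cases i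
    · exact hs.fr' h hF1 hI hT hd hmT hb h3
    · exact h4.ge
    · change 0 ≤ (-mu 2) a
      rw [AddMonoidHom.neg_apply, h5, neg_zero]
    · exact (h5 1).ge
  have nT : ∀ i, Nn (Mu4 (co phi iT) lam mu i)
      (spec z (1 - single T ((tau⁻¹ : (RO O)ˣ) : RO O) : AO O L)) := by
    intro i
    apply nn_f
    fin_cases i
    · exact hs.vT.ge
    · change 0 ≤ co phi iT T
      rw [hT]
      norm_num
    · change 0 ≤ (-mu 2) T
      rw [AddMonoidHom.neg_apply, hmT, neg_zero]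
    · exact (hmT 1).ge
  have n1 : ∀ i, Nn (Mu4 (co phi iT) lam mu i)
      (spec z (1 - single (r 1) (((e 1)⁻¹ : (RO O)ˣ) : RO O) : AO O L)) := by
    intro i
    apply nn_f
    fin_cases i
    · exact hs.r1.ge
    · exact k1.ge
    · change 0 ≤ (-mu 2) (r 1)
      rw [AddMonoidHom.neg_apply, m21]
      norm_num
    · exact m11.ge
  have n2 : ∀ i, Nn (Mu4 (co phi iT) lam mu i)
      (spec z (1 - single (r 2) (((e 2)⁻¹ : (RO O)ˣ) : RO O) : AO O L)) := by
    intro i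
    apply nn_f
    fin_cases i
    · exact hs.r2.ge
    · exact k2.ge
    · change 0 ≤ (-mu 2) (r 2)
      rw [AddMonoidHom.neg_apply, m22, neg_zero]
    · change 0 ≤ mu 1 (r 2)
      rw [m12]
      norm_num
  have eT : mev uL (Mu4 (co phi iT) lam mu) ![s, c, c1, c2]
      (spec z (1 - single T ((tau⁻¹ : (RO O)ˣ) : RO O) : AO O L)) = 1 - Y := by
    apply ev_f
    rw [hs.vT, hT, hmT, hmT, huT, hc]
    simp
  have e1 : mev uL (Mu4 (co phi iT) lam mu) ![s, c, c1, c2]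
      (spec z (1 - single (r 1) (((e 1)⁻¹ : (RO O)ˣ) : RO O) : AO O L)) = 1 - y1 := by
    apply ev_f
    rw [hs.r1, k1, m21, m11, hc1]
    simp
  have e2 : mev uL (Mu4 (co phi iT) lam mu) ![s, c, c1, c2]
      (spec z (1 - single (r 2) (((e 2)⁻¹ : (RO O)ˣ) : RO O) : AO O L)) = 1 - y2 := by
    apply ev_f
    rw [hs.r2, k2, m22, m12, hc2]
    simp
  have n12 := H02.nn_mul_all (Mu4 (co phi iT) lam mu) _ _ n1 n2
  have nT12 := H02.nn_mul_all (Mu4 (co phi iT) lam mu) _ _ nT n12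
  rw [hfe, map_sub, mev_sub, map_mul, map_mul, map_mul,
    H02.mev_mul uL (Mu4 (co phi iT) lam mu) _ _ _ hnp nT12,
    H02.mev_mul uL (Mu4 (co phi iT) lam mu) _ _ _ nT n12,
    H02.mev_mul uL (Mu4 (co phi iT) lam mu) _ _ _ n1 n2, eT, e1, e2, huL,
    ev_01 hT hs.vT z u s c c1 c2 _ (fun a ha => ⟨g0_deg hT hd hb a ha, (g0_supp ha).1.2⟩),
    ev_0 hT hs.vT z u s c c1 c2 _ (fun a ha => ⟨(hpsS a ha).2, (psi_supp (hpsS a ha).1).1.2⟩)]
    at hmain
  intro hcon
  apply hmain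
  rw [A1_sl] at hcon
  rw [← hcon, hc, hps]
  unfold A0el Bel
  ring

/-- (PW) the pointwise inequality on the torus. -/
theorem pw (hM : MultiS) (hSS : StSpecS) (hFa : FaceS) (hEv : EvRS) (hF1 : F1S) (hD : DD phi D)
    (h : Tri phi D r e mu) (hT : co phi iT T = 1) (hd : ∀ i, Dj phi (r i) T)
    (hmT : ∀ i, mu i T = 0) (hp : phi (r 0) p = 1) (hk : Kfl phi (psi phi D r e mu) T tau)
    (hs : Sfn D r T lam) (z : Circle) (hz : evR z (D.coeff 0) ≠ 0)
    (u : AddChar (Ker (co phi iT)) Circle) (w : ℂ) (hw : ‖w‖ = 1) :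
    ‖ev z u (A1el phi D r e mu p T iT tau) - (1 + w) ^ 2 * ev z u (Bel phi D r e mu T iT)‖ ≤
      ‖ev z u (A0el phi D r e mu p iT) - (1 + w) ^ 2 * ev z u (Bel phi D r e mu T iT)‖ := by
  by_contra hcon
  push Not at hcon
  set pa0 := sl u (lam.comp (incl (Ker (co phi iT)))) (spec z (A0el phi D r e mu p iT)) with hpa0
  set pa1 := sl u (lam.comp (incl (Ker (co phi iT)))) (spec z (A1el phi D r e mu p T iT tau))
    with hpa1
  set pb := sl u (lam.comp (incl (Ker (co phi iT)))) (spec z (Bel phi D r e mu T iT)) with hpb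
  have q0 : pa0.eval 1 = ev z u (A0el phi D r e mu p iT) := H02.sl_eval_one _ _ _ _
  have q1 : pa1.eval 1 = ev z u (A1el phi D r e mu p T iT tau) := H02.sl_eval_one _ _ _ _
  have qb : pb.eval 1 = ev z u (Bel phi D r e mu T iT) := H02.sl_eval_one _ _ _ _
  have cc : ∀ q : Polynomial ℂ, Continuous fun x : ℝ => q.eval (x : ℂ) := fun q =>
    q.continuous.comp Complex.continuous_ofReal
  have c0 : Continuous fun x : ℝ => ‖pa0.eval (x : ℂ) - (1 + (x : ℂ) * w) ^ 2 * pb.eval (x : ℂ)‖ := by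
    have := cc pa0
    have := cc pb
    fun_prop
  have c1 : Continuous fun x : ℝ => ‖pa1.eval (x : ℂ) - (1 + (x : ℂ) * w) ^ 2 * pb.eval (x : ℂ)‖ := by
    have := cc pa1
    have := cc pb
    fun_prop
  have e1 := c0.continuousAt.eventually_lt (c1.continuousAt (x := (1 : ℝ))) (by
    rw [Complex.ofReal_one, one_mul, q0, q1, qb]
    exact hcon)
  have e3 : ∀ᶠ x : ℝ in nhds 1, 0 < x := lt_mem_nhds zero_lt_one
  have e4 : ∀ᶠ x : ℝ in nhdsWithin 1 (Set.Iio 1), x < 1 := self_mem_nhdsWithin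
  obtain ⟨x, ⟨hx1, hx0⟩, hx2⟩ := (((e1.and e3).filter_mono nhdsWithin_le_nhds).and e4).exists
  have hxn : ‖(x : ℂ)‖ < 1 := by
    rw [Complex.norm_real, Real.norm_eq_abs, abs_of_pos hx0]
    exact hx2
  set F0 := pa0.eval (x : ℂ) - (1 + (x : ℂ) * w) ^ 2 * pb.eval (x : ℂ) with hF0
  set F1 := pa1.eval (x : ℂ) - (1 + (x : ℂ) * w) ^ 2 * pb.eval (x : ℂ) with hF1'
  have hx1' : ‖F0‖ < ‖F1‖ := hx1
  have hF1n : F1 ≠ 0 := by
    intro h3
    rw [h3, norm_zero] at hx1'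
    exact absurd hx1' (not_lt.mpr (norm_nonneg _))
  have hY : ‖F0 / F1‖ < 1 := by
    rw [norm_div, div_lt_one (norm_pos_iff.mpr hF1n)]
    exact hx1'
  have hy : ‖-((x : ℂ) * w)‖ < 1 := by
    rw [norm_neg, norm_mul, hw, mul_one]
    exact hxn
  refine zf hM hSS hFa hEv hF1 hD h hT hd hmT hp hk hs z hz u hxn hY hy hy ?_
  rw [← hpa0, ← hpa1, ← hpb]
  have h5 : F0 - F0 / F1 * F1 = 0 := by rw [div_mul_cancel₀ _ hF1n, sub_self]
  have h6 : F0 / F1 * F1 = F0 := div_mul_cancel₀ _ hF1n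
  rw [hF0, hF1'] at h5
  linear_combination h5

/-- (GZ) the slices of `A0 + z A1` have no zero in the open disc. -/
theorem gz (hM : MultiS) (hSS : StSpecS) (hFa : FaceS) (hEv : EvRS) (hF1 : F1S) (hD : DD phi D)
    (h : Tri phi D r e mu) (hT : co phi iT T = 1) (hd : ∀ i, Dj phi (r i) T)
    (hmT : ∀ i, mu i T = 0) (hp : phi (r 0) p = 1) (hk : Kfl phi (psi phi D r e mu) T tau)
    (hs : Sfn D r T lam) (z : Circle) (hz : evR z (D.coeff 0) ≠ 0)
    (u : AddChar (Ker (co phi iT)) Circle) (v : ℂ) (hv : ‖v‖ = 1)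
    (h0 : (sl u (lam.comp (incl (Ker (co phi iT)))) (spec z (A0el phi D r e mu p iT))).eval 0 +
      v * (sl u (lam.comp (incl (Ker (co phi iT))))
        (spec z (A1el phi D r e mu p T iT tau))).eval 0 ≠ 0) {s : ℂ} (hsn : ‖s‖ < 1) :
    (sl u (lam.comp (incl (Ker (co phi iT)))) (spec z (A0el phi D r e mu p iT))).eval s +
      v * (sl u (lam.comp (incl (Ker (co phi iT))))
        (spec z (A1el phi D r e mu p T iT tau))).eval s ≠ 0 := by
  intro hcon
  apply h0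
  set pa0 := sl u (lam.comp (incl (Ker (co phi iT)))) (spec z (A0el phi D r e mu p iT)) with hpa0
  set pa1 := sl u (lam.comp (incl (Ker (co phi iT)))) (spec z (A1el phi D r e mu p T iT tau))
    with hpa1
  set pb := sl u (lam.comp (incl (Ker (co phi iT)))) (spec z (Bel phi D r e mu T iT)) with hpb
  let F : ℝ → ℂ → ℂ := fun x τ => pa0.eval τ + (x : ℂ) * v * pa1.eval τ -
    pb.eval τ * ((1 + (x : ℂ) * v) * ((1 - (x : ℂ)) * (1 - (x : ℂ))))
  have hF1e : ∀ τ, F 1 τ = pa0.eval τ + v * pa1.eval τ := by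
    intro τ
    change pa0.eval τ + ((1 : ℝ) : ℂ) * v * pa1.eval τ -
      pb.eval τ * ((1 + ((1 : ℝ) : ℂ) * v) * ((1 - ((1 : ℝ) : ℂ)) * (1 - ((1 : ℝ) : ℂ)))) = _
    rw [Complex.ofReal_one]
    ring
  have hc : Continuous fun q : ℝ × ℂ => F q.1 q.2 := by
    have a0 : Continuous fun q : ℝ × ℂ => pa0.eval q.2 := pa0.continuous.comp continuous_snd
    have a1 : Continuous fun q : ℝ × ℂ => pa1.eval q.2 := pa1.continuous.comp continuous_snd
    have a2 : Continuous fun q : ℝ × ℂ => pb.eval q.2 := pb.continuous.comp continuous_snd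
    have a3 : Continuous fun q : ℝ × ℂ => (q.1 : ℂ) := Complex.continuous_ofReal.comp continuous_fst
    change Continuous fun q : ℝ × ℂ => pa0.eval q.2 + (q.1 : ℂ) * v * pa1.eval q.2 -
      pb.eval q.2 * ((1 + (q.1 : ℂ) * v) * ((1 - (q.1 : ℂ)) * (1 - (q.1 : ℂ))))
    fun_prop
  have hdf : ∀ x, Differentiable ℂ (F x) := by
    intro x
    have a0 := pa0.differentiable
    have a1 := pa1.differentiable
    have a2 := pb.differentiable
    change Differentiable ℂ fun τ => pa0.eval τ + (x : ℂ) * v * pa1.eval τ -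
      pb.eval τ * ((1 + (x : ℂ) * v) * ((1 - (x : ℂ)) * (1 - (x : ℂ))))
    fun_prop
  have h3 := KO21.hurw_all hc hdf (τ0 := s) (r := 1 - ‖s‖) (by linarith) (by
    intro x hx0 hx1 τ hτ
    have hτ1 : ‖τ‖ < 1 := by
      have h4 : τ = (τ - s) + s := by ring
      calc ‖τ‖ = ‖(τ - s) + s‖ := by rw [← h4]
        _ ≤ ‖τ - s‖ + ‖s‖ := norm_add_le _ _
        _ < 1 := by linarith
    have hxn : ‖(x : ℂ)‖ < 1 := by
      rw [Complex.norm_real, Real.norm_eq_abs, abs_of_pos hx0]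
      exact hx1
    have hYn : ‖-((x : ℂ) * v)‖ < 1 := by
      rw [norm_neg, norm_mul, hv, mul_one]
      exact hxn
    intro h5
    refine zf hM hSS hFa hEv hF1 hD h hT hd hmT hp hk hs z hz u hτ1 hYn hxn hxn ?_
    rw [← hpa0, ← hpa1, ← hpb, ← h5]
    change _ = pa0.eval τ + (x : ℂ) * v * pa1.eval τ -
      pb.eval τ * ((1 + (x : ℂ) * v) * ((1 - (x : ℂ)) * (1 - (x : ℂ))))
    ring) (by rw [hF1e]; exact hcon) 0
  rw [hF1e] at h3
  exact h3

end

end Pool.Agent.B5.KO2
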